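import Pool.Agent.K9h79.CC.Univ
import Pool.Agent.R794.UQ.CofLe

/-! # The polymorphism clone of `(ℚ, ≤)` has countable cofinality -/

set_option autoImplicit false

namespace Pool.Agent.K9h79.CC

open Pool.Agent.R794.UQ Cardinal

lemma mem_Pol_iff {n : ℕ} (f : Op ℚ n) : f ∈ Pol leRel n ↔ Monotone f :=
  ⟨fun h _ _ hxy => h () _ _ hxy, fun h _ _ _ hxy => h hxy⟩

/-- The patterns for arity `k + 2`. -/
noncomputable abbrev pt (k N : ℕ) : Pat (k + 1 + 1) := patN (Nat.succ_pos k) N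

/-- A monotone operation of arity `k + 2` containing all patterns. -/
noncomputable def bigF (k : ℕ) : Op ℚ (k + 1) := univF (fun s => (pt k s).φ)

/-- The property shared by all compositions of operations of arity `k + 1`. -/
def W (k : ℕ) (g : Op ℚ (k + 1)) : Prop :=
  ∃ s, ∀ N (e : Fin (k + 1 + 1) → ℕ → ℚ), Copy (pt k (N + s)) (bigF k) e →
    ∃ d, CopyIn (pt k N) (pt k (N + s)) d ∧
      ∃ j, Dom (pt k N).m j (thr g (fun i a => e i (d i a)))

lemma W_proj (k : ℕ) (i : Fin (k + 1 + 1)) : W k (proj i) :=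
  ⟨0, fun N e he => ⟨_, CopyIn.refl _, i, fun _ _ _ _ h => ((he.mono i) h).le⟩⟩

lemma W_list (k m : ℕ) (a : Fin m → Op ℚ (k + 1)) (ha : ∀ i, W k (a i)) (T : Finset (Fin m)) :
    ∃ S, ∀ N (e : Fin (k + 1 + 1) → ℕ → ℚ), Copy (pt k (N + S)) (bigF k) e →
      ∃ d, CopyIn (pt k N) (pt k (N + S)) d ∧
        ∀ i ∈ T, ∃ j, Dom (pt k N).m j (thr (a i) (fun i a => e i (d i a))) := by
  classical
  induction T using Finset.induction_on with
  | empty => exact ⟨0, fun N e _ => ⟨_, CopyIn.refl _, fun i hi => absurd hi (Finset.notMem_empty _)⟩⟩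
  | insert i T _ ih =>
    obtain ⟨S, hS⟩ := ih
    obtain ⟨s, hs⟩ := ha i
    refine ⟨S + s, fun N e he => ?_⟩
    rw [← Nat.add_assoc] at he ⊢
    obtain ⟨d₁, hd₁, j, hj⟩ := hs (N + S) e he
    obtain ⟨d₂, hd₂, h2⟩ := hS N _ (hd₁.copy he)
    refine ⟨_, hd₂.comp hd₁, ?_⟩
    intro i' hi'
    rcases Finset.mem_insert.1 hi' with rfl | hi'
    · exact ⟨j, Dom.thr (G := thr (a i') (fun i a => e i (d₁ i a))) hd₂ hj⟩
    · exact h2 i' hi'

lemma W_apply (k : ℕ) (F : Op ℚ k) (hF : Monotone F) (a : Fin (k + 1) → Op ℚ (k + 1))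
    (ham : ∀ i, Monotone (a i)) (ha : ∀ i, W k (a i)) : W k (cmp F a) := by
  classical
  obtain ⟨S, hS⟩ := W_list k (k + 1) a ha Finset.univ
  refine ⟨1 + S, fun N e he => ?_⟩
  rw [← Nat.add_assoc] at he ⊢
  obtain ⟨d, hd, h2⟩ := hS (N + 1) e he
  choose j hj using fun i => h2 i (Finset.mem_univ i)
  obtain ⟨l, hl⟩ : ∃ l : Fin (k + 1 + 1), ∀ i, j i ≠ l := by
    by_contra hcon
    push Not at hcon
    have := Fintype.card_le_of_surjective j hcon
    simp at this
  have hmono : Monotone (thr (cmp F a) (fun i a => e i (d i a))) := by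
    intro p p' hpp
    refine hF (fun i => ham i (fun i' => ?_))
    exact (he.mono i').monotone ((hd.mono i').monotone (hpp i'))
  have hdom : DomOff (pt k (N + 1)).m l (thr (cmp F a) (fun i a => e i (d i a))) := by
    intro p p' hp hp' hpp
    exact hF (fun i => hj i p p' hp hp' (hpp _ (hl i)))
  obtain ⟨d', hd', j', hj'⟩ := patN_succ (Nat.succ_pos k) N l _ hmono hdom
  exact ⟨_, hd'.comp hd, j', hj'⟩

lemma not_W_bigF (k : ℕ) : ¬ W k (bigF k) := by
  classical
  rintro ⟨s, hs⟩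
  have hc : Copy (pt k (0 + s)) (bigF k) (fun _ => ev (0 + s)) :=
    copy_ev (Nat.succ_pos _) (pt k) (0 + s)
  obtain ⟨d, hd, j, hj⟩ := hs 0 _ hc
  let p : Fin (k + 1 + 1) → ℕ := fun i => if i = j then 0 else 2
  let p' : Fin (k + 1 + 1) → ℕ := fun i => if i = j then 1 else 0
  have hp : ∀ i, p i < (pt k 0).m := by
    intro i
    change (if i = j then 0 else 2) < 3
    split_ifs <;> norm_num
  have hp' : ∀ i, p' i < (pt k 0).m := by
    intro i
    change (if i = j then 1 else 0) < 3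
    split_ifs <;> norm_num
  have h1 : (pt k 0).φ p' < (pt k 0).φ p := by
    change ∑ i, p' i < ∑ i, p i
    have e1 : ∑ i, p' i = 1 := by simp [p']
    obtain ⟨i, hi⟩ : ∃ i : Fin (k + 1 + 1), i ≠ j := exists_ne j
    have e2 : p i ≤ ∑ i, p i := Finset.single_le_sum (fun _ _ => Nat.zero_le _) (Finset.mem_univ i)
    have e3 : p i = 2 := by simp [p, hi]
    omega
  have h2 := hd.pres p' p hp' hp h1
  have h3 := hc.pres _ _ (fun i => hd.lt i _ (hp' i)) (fun i => hd.lt i _ (hp i)) h2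
  have h4 := hj p p' hp hp' (by simp [p, p'])
  exact absurd h3 (not_lt.2 h4)

lemma bigF_mem (k : ℕ) : bigF k ∈ Pol leRel (k + 1) :=
  (mem_Pol_iff _).2 (univF_mono _ fun s => (pt k s).mono)

/-- A clone that contains the members of arity `k + 1` of `Pol (ℚ, ≤)`. -/
def famG (k : ℕ) : Fam ℚ := fun m => {g | g ∈ Pol leRel m ∧
  ∀ b : Fin (m + 1) → Op ℚ (k + 1), (∀ i, b i ∈ Pol leRel (k + 1) ∧ W k (b i)) → W k (cmp g b)}

lemma isClone_famG (k : ℕ) : IsClone (famG k) := by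
  refine ⟨fun n i => ⟨(isClone_Pol _).proj_mem n i, fun b hb => (hb i).2⟩, ?_⟩
  rintro n m f g ⟨hf, hf'⟩ hg
  refine ⟨(isClone_Pol _).cmp_mem _ _ _ _ hf fun i => (hg i).1, fun b hb => ?_⟩
  refine hf' (fun i => cmp (g i) b) fun i => ⟨?_, (hg i).2 b hb⟩
  exact (isClone_Pol _).cmp_mem _ _ _ _ (hg i).1 fun i => (hb i).1

lemma part_sub_famG (k : ℕ) : Sub (part (Pol leRel) k) (famG k) := by
  rintro n f ⟨hf, rfl⟩
  refine ⟨hf, fun b hb => ?_⟩
  exact W_apply n f ((mem_Pol_iff _).1 hf) b (fun i => (mem_Pol_iff _).1 (hb i).1)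
    fun i => (hb i).2

lemma bigF_not_mem (k : ℕ) : bigF k ∉ famG k (k + 1) := by
  rintro ⟨-, h⟩
  refine not_W_bigF k (h (fun i => proj i) fun i => ⟨(isClone_Pol _).proj_mem _ i, W_proj k i⟩)

/-- For every `k` some monotone operation of arity `k + 2` is outside a clone containing all
monotone operations of arity `k + 1`. -/
theorem exists_not_mem (k : ℕ) : ∃ f ∈ Pol leRel (k + 1), ∃ G : Fam ℚ, IsClone G ∧
    Sub (part (Pol leRel) k) G ∧ f ∉ G (k + 1) :=
  ⟨bigF k, bigF_mem k, famG k, isClone_famG k, part_sub_famG k, bigF_not_mem k⟩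

theorem not_generates (k : ℕ) : ¬ Generates (part (Pol leRel) k) (Pol leRel) := by
  intro h
  obtain ⟨f, hf, G, h1, h2, h3⟩ := exists_not_mem k
  exact h3 (h.2.2 G h1 h2 _ hf)

/-- The chain of the clones generated by the operations of arity `k + 1`. -/
theorem chain_nat : ProperChain (Pol leRel) (fun k : ℕ => gen (part (Pol leRel) k)) := by
  have hF : IsClone (Pol leRel) := isClone_Pol _
  have key : ∀ k, Sub (gen (part (Pol leRel) k)) (Pol leRel) :=
    fun k => gen_sub hF fun n f hf => hf.1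
  refine ⟨fun k => isClone_gen _, key, ?_, ?_, ?_⟩
  · intro k hk
    exact not_generates k (generates_of_sub_gen hF (fun n f hf => hf.1) hk)
  · intro k l hkl
    refine gen_sub (isClone_gen _) ?_
    rintro n f ⟨hf, rfl⟩
    have h1 : cmp f (fun i : Fin (n + 1) => (proj (Fin.castLE (by omega) i) : Op ℚ l)) ∈
        part (Pol leRel) l l := ⟨hF.cmp_mem _ _ _ _ hf fun i => hF.proj_mem _ _, rfl⟩
    have h2 := (isClone_gen (part (Pol leRel) l)).cmp_mem _ n _
      (fun j : Fin (l + 1) => if h : j.1 < n + 1 then (proj ⟨j.1, h⟩ : Op ℚ n) else proj 0)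
      (sub_gen _ _ h1) (by
        intro j
        beta_reduce
        split_ifs
        · exact (isClone_gen _).proj_mem _ _
        · exact (isClone_gen _).proj_mem _ _)
    convert h2 using 1
    funext x
    simp only [Pool.Agent.R794.UQ.cmp]
    congr 1
    funext i
    have : ∀ j : Fin (l + 1), j.1 = i.1 →
        (if h : j.1 < n + 1 then (proj ⟨j.1, h⟩ : Op ℚ n) else proj 0) = proj i := by
      intro j hj
      rw [dif_pos (by rw [hj]; exact i.2)]
      congr 1
      exact Fin.ext hj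
    change x i = (if h : (Fin.castLE _ i : Fin (l + 1)).1 < n + 1 then
      (proj ⟨(Fin.castLE _ i : Fin (l + 1)).1, h⟩ : Op ℚ n) else proj 0) x
    rw [this _ rfl]
    rfl
  · intro n f hf
    exact ⟨n, sub_gen _ _ ⟨hf, rfl⟩⟩

/-- A chain indexed by `ℕ` gives one indexed by the ordinals below `ω`. -/
lemma chain_of_nat {A : Type} {F : Fam A} (G : ℕ → Fam A) (hG : ProperChain F G) :
    ∃ G' : (ℵ₀ : Cardinal.{0}).ord.ToType → Fam A, ProperChain F G' := by
  classical
  have hn : ∀ i : (ℵ₀ : Cardinal.{0}).ord.ToType, ∃ n : ℕ,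
      ((Ordinal.ToType.mk.symm i : Set.Iio (ℵ₀ : Cardinal.{0}).ord) : Ordinal) = n := by
    intro i
    have h1 := (Ordinal.ToType.mk.symm i).2
    rw [Set.mem_Iio] at h1
    exact Ordinal.lt_omega0.1 (lt_of_lt_of_eq h1 Cardinal.ord_aleph0)
  choose r hr using hn
  have hrmono : ∀ i j, i ≤ j → r i ≤ r j := by
    intro i j hij
    have h1 : Ordinal.ToType.mk.symm i ≤ Ordinal.ToType.mk.symm j :=
      (OrderIso.le_iff_le _).2 hij
    have h2 : ((Ordinal.ToType.mk.symm i : Set.Iio (ℵ₀ : Cardinal.{0}).ord) : Ordinal) ≤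
      ((Ordinal.ToType.mk.symm j : Set.Iio (ℵ₀ : Cardinal.{0}).ord) : Ordinal) := h1
    rw [hr, hr] at h2
    exact_mod_cast h2
  have hrsurj : ∀ n, ∃ i, r i = n := by
    intro n
    have hlt : ((n : ℕ) : Ordinal.{0}) < (ℵ₀ : Cardinal.{0}).ord := by
      rw [Cardinal.ord_aleph0]; exact Ordinal.natCast_lt_omega0 n
    refine ⟨Ordinal.ToType.mk ⟨(n : Ordinal), hlt⟩, ?_⟩
    have := hr (Ordinal.ToType.mk ⟨(n : Ordinal), hlt⟩)
    rw [OrderIso.symm_apply_apply] at this
    have h2 : ((n : ℕ) : Ordinal.{0}) = (r (Ordinal.ToType.mk ⟨(n : Ordinal), hlt⟩) : ℕ) := this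
    exact_mod_cast h2.symm
  refine ⟨fun i => G (r i), fun i => hG.clone _, fun i => hG.sub _, fun i => hG.proper _,
    fun i j hij => hG.mono _ _ (hrmono i j hij), fun n f hf => ?_⟩
  obtain ⟨m, hm⟩ := hG.union n f hf
  obtain ⟨i, hi⟩ := hrsurj m
  exact ⟨i, by rw [hi]; exact hm⟩

lemma not_finite_chain {A ι : Type} [LinearOrder ι] [Finite ι] {F : Fam A} (hF : IsClone F)
    (G : ι → Fam A) (hG : ProperChain F G) : False := by
  obtain ⟨i₀, -⟩ := hG.union 0 (proj 0) (hF.proj_mem 0 0)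
  have : Nonempty ι := ⟨i₀⟩
  obtain ⟨m, hm⟩ := Finite.exists_max (id : ι → ι)
  refine hG.proper m (fun n f hf => ?_)
  obtain ⟨i, hi⟩ := hG.union n f hf
  exact hG.mono i m (hm i) n hi

/-- The cofinality of the polymorphism clone of `(ℚ, ≤)` is countable. -/
theorem cf_le_eq : cf (Pol leRel) = ℵ₀ := by
  apply le_antisymm
  · exact csInf_le' (chain_of_nat _ chain_nat)
  · refine le_csInf ⟨ℵ₀, chain_of_nat _ chain_nat⟩ ?_
    rintro c ⟨G, hG⟩
    by_contra hc
    push Not at hc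
    have : Finite c.ord.ToType := by
      rw [← Cardinal.lt_aleph0_iff_finite, Cardinal.mk_ord_toType]
      exact hc
    exact not_finite_chain (isClone_Pol _) G hG

end Pool.Agent.K9h79.CC
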