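import Pool.Agent.K9h79.CC.Ramsey

/-! # Finite patterns of monotone functions -/

set_option autoImplicit false

namespace Pool.Agent.K9h79.CC

/-- A pattern: a monotone function on the grid `[0, m)^n` (given on all of `ℕ^n`). -/
structure Pat (n : ℕ) where
  m : ℕ
  φ : (Fin n → ℕ) → ℕ
  pos : 0 < m
  mono : Monotone φ

/-- `d` is a copy of the pattern `P` in the pattern `Q`. -/
structure CopyIn {n : ℕ} (P Q : Pat n) (d : Fin n → ℕ → ℕ) : Prop where
  mono : ∀ j, StrictMono (d j)
  lt : ∀ j, ∀ a < P.m, d j a < Q.m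
  pres : ∀ p p' : Fin n → ℕ, (∀ j, p j < P.m) → (∀ j, p' j < P.m) → P.φ p < P.φ p' →
    Q.φ (fun j => d j (p j)) < Q.φ (fun j => d j (p' j))

/-- `e` is a copy of the pattern `P` in the function `f`. -/
structure Copy {n : ℕ} (P : Pat n) (f : (Fin n → ℚ) → ℚ) (e : Fin n → ℕ → ℚ) : Prop where
  mono : ∀ j, StrictMono (e j)
  pres : ∀ p p' : Fin n → ℕ, (∀ j, p j < P.m) → (∀ j, p' j < P.m) → P.φ p < P.φ p' →
    f (fun j => e j (p j)) < f (fun j => e j (p' j))

/-- `G` is dominated by the coordinate `j` on `[0, m)^n`. -/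
def Dom {n : ℕ} (m : ℕ) (j : Fin n) (G : (Fin n → ℕ) → ℚ) : Prop :=
  ∀ p p' : Fin n → ℕ, (∀ i, p i < m) → (∀ i, p' i < m) → p j < p' j → G p ≤ G p'

/-- `G` is dominated by the coordinates other than `l` on `[0, m)^n`. -/
def DomOff {n : ℕ} (m : ℕ) (l : Fin n) (G : (Fin n → ℕ) → ℚ) : Prop :=
  ∀ p p' : Fin n → ℕ, (∀ i, p i < m) → (∀ i, p' i < m) → (∀ i, i ≠ l → p i < p' i) → G p ≤ G p'

/-- The function `G` read through `d`. -/
def thr {n : ℕ} {A B C : Type} (G : (Fin n → B) → C) (d : Fin n → A → B) : (Fin n → A) → C :=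
  fun p => G (fun i => d i (p i))

lemma CopyIn.refl {n : ℕ} (P : Pat n) : CopyIn P P (fun _ a => a) :=
  ⟨fun _ => strictMono_id, fun _ _ h => h, fun _ _ _ _ h => h⟩

lemma CopyIn.comp {n : ℕ} {P Q S : Pat n} {d d' : Fin n → ℕ → ℕ} (h : CopyIn P Q d)
    (h' : CopyIn Q S d') : CopyIn P S (fun j a => d' j (d j a)) :=
  ⟨fun j => (h'.mono j).comp (h.mono j), fun j a ha => h'.lt j _ (h.lt j a ha),
    fun p p' hp hp' hpp => h'.pres _ _ (fun j => h.lt j _ (hp j)) (fun j => h.lt j _ (hp' j))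
      (h.pres p p' hp hp' hpp)⟩

lemma CopyIn.copy {n : ℕ} {P Q : Pat n} {f : (Fin n → ℚ) → ℚ} {d : Fin n → ℕ → ℕ}
    {e : Fin n → ℕ → ℚ} (h : CopyIn P Q d) (h' : Copy Q f e) :
    Copy P f (fun j a => e j (d j a)) :=
  ⟨fun j => (h'.mono j).comp (h.mono j),
    fun p p' hp hp' hpp => h'.pres _ _ (fun j => h.lt j _ (hp j)) (fun j => h.lt j _ (hp' j))
      (h.pres p p' hp hp' hpp)⟩

lemma Dom.thr {n : ℕ} {P Q : Pat n} {d : Fin n → ℕ → ℕ} {j : Fin n} {G : (Fin n → ℕ) → ℚ}
    (h : CopyIn P Q d) (hG : Dom Q.m j G) : Dom P.m j (thr G d) :=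
  fun p p' hp hp' hpp => hG _ _ (fun i => h.lt i _ (hp i)) (fun i => h.lt i _ (hp' i))
    (h.mono j hpp)

lemma DomOff.thr {n : ℕ} {P Q : Pat n} {d : Fin n → ℕ → ℕ} {l : Fin n} {G : (Fin n → ℕ) → ℚ}
    (h : CopyIn P Q d) (hG : DomOff Q.m l G) : DomOff P.m l (thr G d) :=
  fun p p' hp hp' hpp => hG _ _ (fun i => h.lt i _ (hp i)) (fun i => h.lt i _ (hp' i))
    (fun i hi => h.mono i (hpp i hi))

lemma thr_mono {n : ℕ} {P Q : Pat n} {d : Fin n → ℕ → ℕ} {G : (Fin n → ℕ) → ℚ}
    (h : CopyIn P Q d) (hG : Monotone G) : Monotone (thr G d) :=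
  fun _ _ hpp => hG (fun i => (h.mono i).monotone (hpp i))

section lemA

variable {r : ℕ}

/-- The families of sequences, coded by numbers. -/
noncomputable def fam (m R s : ℕ) (i : Fin r) (k : Fin m) : ℕ :=
  if h : s < Fintype.card (Fin r → Fin m → Fin R) then
    ((Fintype.equivFin (Fin r → Fin m → Fin R)).symm ⟨s, h⟩ i k : ℕ) else 0

lemma exists_fam (m R : ℕ) (τ : Fin r → Fin m → ℕ) (hτ : ∀ i k, τ i k < R) :
    ∃ s < Fintype.card (Fin r → Fin m → Fin R), ∀ i k, fam m R s i k = τ i k := by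
  let τ' : Fin r → Fin m → Fin R := fun i k => ⟨τ i k, hτ i k⟩
  refine ⟨Fintype.equivFin (Fin r → Fin m → Fin R) τ', Fin.is_lt _, fun i k => ?_⟩
  unfold fam
  rw [dif_pos (Fin.is_lt _)]
  simp [τ']

/-- The decoded point. -/
noncomputable def hat (m R : ℕ) (l : Fin (r + 1)) (x : Fin (r + 1) → ℕ) : Fin (r + 1) → ℕ :=
  l.insertNth (α := fun _ => ℕ) (x l % m) (fun i => (Finset.univ.filter
    (fun k : Fin m => fam m R (x l / m) i k ≤ x (l.succAbove i))).card - 1)

lemma hat_same (m R : ℕ) (l : Fin (r + 1)) (x : Fin (r + 1) → ℕ) : hat m R l x l = x l % m := by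
  simp [hat]

lemma hat_succAbove (m R : ℕ) (l : Fin (r + 1)) (x : Fin (r + 1) → ℕ) (i : Fin r) :
    hat m R l x (l.succAbove i) = (Finset.univ.filter
    (fun k : Fin m => fam m R (x l / m) i k ≤ x (l.succAbove i))).card - 1 := by
  simp [hat]

lemma hat_le (m R : ℕ) (hm : 0 < m) (l : Fin (r + 1)) (x : Fin (r + 1) → ℕ) :
    hat m R l x ≤ fun _ => m := by
  intro j
  revert j
  rw [Fin.forall_iff_succAbove l]
  constructor
  · rw [hat_same]
    exact (Nat.mod_lt _ hm).le
  · intro i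
    rw [hat_succAbove]
    refine (Nat.sub_le _ _).trans ((Finset.card_filter_le _ _).trans ?_)
    simp

lemma hat_mono (m R : ℕ) (l : Fin (r + 1)) (x x' : Fin (r + 1) → ℕ) (h : x ≤ x')
    (hs : x l / m = x' l / m) : hat m R l x ≤ hat m R l x' := by
  intro j
  revert j
  rw [Fin.forall_iff_succAbove l]
  constructor
  · rw [hat_same, hat_same]
    have e1 := Nat.div_add_mod (x l) m
    have e2 := Nat.div_add_mod (x' l) m
    rw [hs] at e1
    have e3 : x l ≤ x' l := h l
    generalize m * (x' l / m) = q at e1 e2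
    change x l % m ≤ x' l % m
    omega
  · intro i
    rw [hat_succAbove, hat_succAbove, hs]
    refine Nat.sub_le_sub_right (Finset.card_le_card ?_) 1
    intro k hk
    simp only [Finset.mem_filter, Finset.mem_univ, true_and] at hk ⊢
    exact hk.trans (h _)

/-- The value function of the big pattern. -/
noncomputable def big (P : Pat (r + 1)) (R : ℕ) (l : Fin (r + 1)) (x : Fin (r + 1) → ℕ) : ℕ :=
  (P.φ (fun _ => P.m) + 1) * (x l / P.m) + P.φ (hat P.m R l x)

lemma big_mono (P : Pat (r + 1)) (R : ℕ) (l : Fin (r + 1)) : Monotone (big P R l) := by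
  intro x x' h
  unfold big
  have h1 : x l / P.m ≤ x' l / P.m := Nat.div_le_div_right (h l)
  rcases h1.lt_or_eq with h2 | h2
  · have h3 : P.φ (hat P.m R l x) ≤ P.φ (fun _ => P.m) := P.mono (hat_le _ _ P.pos _ _)
    have h4 : (P.φ (fun _ => P.m) + 1) * (x l / P.m + 1) ≤
      (P.φ (fun _ => P.m) + 1) * (x' l / P.m) := Nat.mul_le_mul_left _ h2
    rw [Nat.mul_add, Nat.mul_one] at h4
    omega
  · rw [h2]
    exact Nat.add_le_add_left (P.mono (hat_mono _ _ _ _ _ h h2)) _

lemma card_count (m : ℕ) (H : ℕ → ℕ) (hH : StrictMono H) (p : ℕ) (hp : p < m) :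
    (Finset.univ.filter (fun k : Fin m => H (3 * k + 1) ≤ H (3 * p + 1))).card - 1 = p := by
  have : (Finset.univ.filter (fun k : Fin m => H (3 * k + 1) ≤ H (3 * p + 1))) =
      Finset.Iic (⟨p, hp⟩ : Fin m) := by
    ext k
    simp only [Finset.mem_filter, Finset.mem_univ, true_and, Finset.mem_Iic, hH.le_iff_le,
      Fin.le_def]
    omega
  rw [this, Fin.card_Iic]
  simp

lemma lemA (hr : 0 < r) (l : Fin (r + 1)) (P : Pat (r + 1)) : ∃ Q : Pat (r + 1),
    ∀ G : (Fin (r + 1) → ℕ) → ℚ, Monotone G → DomOff Q.m l G →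
      ∃ d, CopyIn P Q d ∧ ∃ j, Dom P.m j (thr G d) := by
  classical
  obtain ⟨R, hR⟩ := dominated r (3 * P.m) hr
  set S := Fintype.card (Fin r → Fin P.m → Fin R) with hS
  refine ⟨⟨R + P.m * S + 1, big P R l, by omega, big_mono P R l⟩, fun G hG hGl => ?_⟩
  have hmono : Monotone (fun u : Fin r → ℕ => G (l.insertNth (α := fun _ => ℕ) 0 u)) := by
    intro u u' huu
    refine hG (fun j => ?_)
    revert j
    rw [Fin.forall_iff_succAbove l]
    constructor
    · simp
    · intro i
      simpa using huu i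
  obtain ⟨H, h1, h2, j₀, h3⟩ := hR _ hmono
  obtain ⟨s, hs, hfam⟩ := exists_fam P.m R (fun (i : Fin r) k => H i (3 * k + 1))
    (fun i k => h2 i _ (by have := k.2; omega))
  let d : Fin (r + 1) → ℕ → ℕ := l.insertNth (α := fun _ => ℕ → ℕ) (fun k => P.m * s + k)
    (fun i k => H i (3 * k + 1))
  have hdl : ∀ k, d l k = P.m * s + k := fun k => by simp [d]
  have hdi : ∀ i k, d (l.succAbove i) k = H i (3 * k + 1) := fun i k => by simp [d]
  have hdm : ∀ j, StrictMono (d j) := by
    rw [Fin.forall_iff_succAbove l]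
    constructor
    · intro a b hab
      rw [hdl, hdl]
      omega
    · intro i a b hab
      rw [hdi, hdi]
      exact h1 i (by omega)
  have hdlt : ∀ j, ∀ a < P.m, d j a < R + P.m * S + 1 := by
    rw [Fin.forall_iff_succAbove l]
    constructor
    · intro a ha
      rw [hdl]
      have : P.m * (s + 1) ≤ P.m * S := Nat.mul_le_mul_left _ hs
      rw [Nat.mul_add, Nat.mul_one] at this
      omega
    · intro i a ha
      rw [hdi]
      have := h2 i (3 * a + 1) (by omega)
      omega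
  have hval : ∀ p : Fin (r + 1) → ℕ, (∀ j, p j < P.m) →
      big P R l (fun j => d j (p j)) = (P.φ (fun _ => P.m) + 1) * s + P.φ p := by
    intro p hp
    have hq : (P.m * s + p l) / P.m = s := by
      rw [Nat.mul_add_div P.pos, Nat.div_eq_of_lt (hp l), Nat.add_zero]
    have hh : hat P.m R l (fun j => d j (p j)) = p := by
      funext j
      revert j
      rw [Fin.forall_iff_succAbove l]
      constructor
      · rw [hat_same]
        beta_reduce
        rw [hdl, Nat.mul_add_mod, Nat.mod_eq_of_lt (hp l)]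
      · intro i
        rw [hat_succAbove]
        beta_reduce
        rw [hdl, hq]
        simp only [hfam, hdi]
        exact card_count P.m (H i) (h1 i) _ (hp _)
    unfold big
    rw [hh]
    beta_reduce
    rw [hdl, hq]
  refine ⟨d, ⟨hdm, hdlt, ?_⟩, l.succAbove j₀, ?_⟩
  · intro p p' hp hp' hpp
    change big P R l (fun j => d j (p j)) < big P R l (fun j => d j (p' j))
    rw [hval p hp, hval p' hp']
    omega
  · intro p p' hp hp' hpp
    have b1 : ∀ j, d j (p j) < R + P.m * S + 1 := fun j => hdlt j _ (hp j)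
    have b2 : ∀ j, d j (p' j) < R + P.m * S + 1 := fun j => hdlt j _ (hp' j)
    have c1 : ∀ j, (l.insertNth (α := fun _ => ℕ) 0
        (fun i => H i (3 * p (l.succAbove i) + 2)) : Fin (r + 1) → ℕ) j < R + P.m * S + 1 := by
      rw [Fin.forall_iff_succAbove l]
      constructor
      · simp
      · intro i
        have e1 := h2 i (3 * p (l.succAbove i) + 2) (by have := hp (l.succAbove i); omega)
        simp only [Fin.insertNth_apply_succAbove]
        omega
    have c2 : ∀ j, (l.insertNth (α := fun _ => ℕ) 0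
        (fun i => H i (3 * p' (l.succAbove i))) : Fin (r + 1) → ℕ) j < R + P.m * S + 1 := by
      rw [Fin.forall_iff_succAbove l]
      constructor
      · simp
      · intro i
        have e1 := h2 i (3 * p' (l.succAbove i)) (by have := hp' (l.succAbove i); omega)
        simp only [Fin.insertNth_apply_succAbove]
        omega
    have e1 : thr G d p ≤ G (l.insertNth (α := fun _ => ℕ) 0
        (fun i => H i (3 * p (l.succAbove i) + 2))) := by
      refine hGl _ _ b1 c1 ?_
      rw [Fin.forall_iff_succAbove l]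
      constructor
      · intro h
        exact absurd rfl h
      · intro i _
        rw [hdi]
        simp only [Fin.insertNth_apply_succAbove]
        exact h1 i (by omega)
    have e2 : G (l.insertNth (α := fun _ => ℕ) 0 (fun i => H i (3 * p (l.succAbove i) + 2))) ≤
        G (l.insertNth (α := fun _ => ℕ) 0 (fun i => H i (3 * p' (l.succAbove i)))) := by
      refine h3 (fun i => 3 * p (l.succAbove i) + 2) (fun i => 3 * p' (l.succAbove i)) ?_ ?_ ?_ ?_
      · intro i
        beta_reduce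
        omega
      · intro i
        have := hp (l.succAbove i)
        beta_reduce
        omega
      · intro i
        have := hp' (l.succAbove i)
        beta_reduce
        omega
      · beta_reduce
        omega
    have e3 : G (l.insertNth (α := fun _ => ℕ) 0 (fun i => H i (3 * p' (l.succAbove i)))) ≤
        thr G d p' := by
      refine hGl _ _ c2 b2 ?_
      rw [Fin.forall_iff_succAbove l]
      constructor
      · intro h
        exact absurd rfl h
      · intro i _
        rw [hdi]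
        simp only [Fin.insertNth_apply_succAbove]
        exact h1 i (by omega)
    exact e1.trans (e2.trans e3)

lemma lemB_aux (hr : 0 < r) (P : Pat (r + 1)) (T : Finset (Fin (r + 1))) :
    ∃ Q : Pat (r + 1), (∃ d, CopyIn P Q d) ∧ ∀ l ∈ T,
      ∀ G : (Fin (r + 1) → ℕ) → ℚ, Monotone G → DomOff Q.m l G →
        ∃ d, CopyIn P Q d ∧ ∃ j, Dom P.m j (thr G d) := by
  classical
  induction T using Finset.induction_on with
  | empty => exact ⟨P, ⟨_, CopyIn.refl P⟩, fun l hl => absurd hl (Finset.notMem_empty _)⟩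
  | insert a T _ ih =>
    obtain ⟨Q, ⟨c, hc⟩, hQ⟩ := ih
    obtain ⟨Q', hQ'⟩ := lemA hr a Q
    obtain ⟨d₀, hd₀, -⟩ := hQ' (fun _ => 0) monotone_const (fun _ _ _ _ _ => le_rfl)
    refine ⟨Q', ⟨_, hc.comp hd₀⟩, ?_⟩
    intro l hl G hG hGl
    rcases Finset.mem_insert.1 hl with rfl | hl
    · obtain ⟨d, hd, j, hj⟩ := hQ' G hG hGl
      exact ⟨_, hc.comp hd, j, Dom.thr (G := thr G d) hc hj⟩
    · obtain ⟨d, hd, j, hj⟩ := hQ l hl (thr G d₀) (thr_mono hd₀ hG) (hGl.thr hd₀)
      exact ⟨_, hd.comp hd₀, j, hj⟩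

/-- One pattern is good for all coordinates. -/
lemma lemB (hr : 0 < r) (P : Pat (r + 1)) : ∃ Q : Pat (r + 1), ∀ l,
    ∀ G : (Fin (r + 1) → ℕ) → ℚ, Monotone G → DomOff Q.m l G →
      ∃ d, CopyIn P Q d ∧ ∃ j, Dom P.m j (thr G d) := by
  obtain ⟨Q, -, hQ⟩ := lemB_aux hr P Finset.univ
  exact ⟨Q, fun l => hQ l (Finset.mem_univ _)⟩

end lemA

/-- The starting pattern. -/
def pat0 (n : ℕ) : Pat n := ⟨3, fun x => ∑ i, x i, by norm_num,
  fun _ _ h => Finset.sum_le_sum fun i _ => h i⟩

/-- The sequence of patterns. -/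
noncomputable def patN {r : ℕ} (hr : 0 < r) : ℕ → Pat (r + 1)
  | 0 => pat0 (r + 1)
  | N + 1 => (lemB hr (patN hr N)).choose

lemma patN_succ {r : ℕ} (hr : 0 < r) (N : ℕ) (l : Fin (r + 1)) (G : (Fin (r + 1) → ℕ) → ℚ)
    (hG : Monotone G) (hGl : DomOff (patN hr (N + 1)).m l G) :
    ∃ d, CopyIn (patN hr N) (patN hr (N + 1)) d ∧ ∃ j, Dom (patN hr N).m j (thr G d) :=
  (lemB hr (patN hr N)).choose_spec l G hG hGl

end Pool.Agent.K9h79.CC
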