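import Mathlib
import Pool.Agent.H430R3.SW.Ramsey

/-! # A product Ramsey theorem for pairs and monotone functions -/

set_option autoImplicit false

namespace Pool.Agent.K9h79.CC

/-- Ramsey's theorem for pairs, the homogeneous sequence being extended to all of `ℕ`. -/
lemma ramsey_seq (κ : Type) [Fintype κ] [Nonempty κ] (t : ℕ) : ∃ R : ℕ, ∀ c : ℕ → ℕ → κ,
    ∃ H : ℕ → ℕ, StrictMono H ∧ (∀ i < t, H i < R) ∧
      ∃ k, ∀ i j, i < j → j < t → c (H i) (H j) = k := by
  obtain ⟨R, hR⟩ := Pool.Agent.H430R3.SW.ramsey (α := κ) t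
  refine ⟨R, fun c => ?_⟩
  obtain ⟨g, h1, h2, k, h3⟩ := hR c
  refine ⟨fun a => if h : a < t then g ⟨a, h⟩ else R + a, ?_, ?_, k, ?_⟩
  · intro a b hab
    beta_reduce
    by_cases hb : b < t
    · rw [dif_pos hb, dif_pos (hab.trans hb)]
      exact h1 hab
    · rw [dif_neg hb]
      split_ifs with ha
      · have := h2 ⟨a, ha⟩
        omega
      · omega
  · intro i hi
    beta_reduce
    rw [dif_pos hi]
    exact h2 _
  · intro i j hij hj
    beta_reduce
    rw [dif_pos hj, dif_pos (hij.trans hj)]
    exact h3 _ _ hij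

/-- The product Ramsey theorem for pairs. -/
lemma prod_ramsey (r : ℕ) : ∀ (κ : Type) [Fintype κ] [Nonempty κ] (t : ℕ), ∃ R : ℕ,
    ∀ c : (Fin r → ℕ) → (Fin r → ℕ) → κ, ∃ H : Fin r → ℕ → ℕ, (∀ i, StrictMono (H i)) ∧
      (∀ i, ∀ a < t, H i a < R) ∧
      ∃ k, ∀ a b : Fin r → ℕ, (∀ i, a i < b i) → (∀ i, b i < t) →
        c (fun i => H i (a i)) (fun i => H i (b i)) = k := by
  classical
  induction r with
  | zero =>
    intro κ _ _ t
    refine ⟨0, fun c => ⟨fun i => i.elim0, fun i => i.elim0, fun i => i.elim0,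
      c (fun i => i.elim0) (fun i => i.elim0), ?_⟩⟩
    intro a b _ _
    congr 1 <;> exact Subsingleton.elim _ _
  | succ r ih =>
    intro κ _ _ t
    obtain ⟨R', hR'⟩ := ih κ t
    obtain ⟨R1, hR1⟩ := ramsey_seq ((Fin r → Fin R') → (Fin r → Fin R') → κ) t
    refine ⟨max R1 R', fun c => ?_⟩
    obtain ⟨H0, h1, h2, k1, h3⟩ := hR1 (fun x y u v =>
      c (Fin.cons x (fun i => (u i : ℕ))) (Fin.cons y (fun i => (v i : ℕ))))
    obtain ⟨H', h1', h2', k, h3'⟩ := hR' (fun u v => c (Fin.cons (H0 0) u) (Fin.cons (H0 1) v))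
    refine ⟨Fin.cons H0 H', ?_, ?_, k, ?_⟩
    · intro i
      refine Fin.cases ?_ (fun i => ?_) i
      · simpa using h1
      · simpa using h1' i
    · intro i a ha
      refine Fin.cases ?_ (fun i => ?_) i
      · simpa using Or.inl (h2 a ha)
      · simpa using Or.inr (h2' i a ha)
    · intro a b hab hb
      have ht : 1 < t := by
        have e1 := hab 0
        have e2 := hb 0
        omega
      have e1 := h3 (a 0) (b 0) (hab 0) (hb 0)
      have e2 := h3 0 1 (by norm_num) ht
      have hlt : ∀ i : Fin r, H' i (a i.succ) < R' := fun i =>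
        h2' i _ ((hab _).trans (hb _))
      have hlt' : ∀ i : Fin r, H' i (b i.succ) < R' := fun i => h2' i _ (hb _)
      have e3 := congrFun (congrFun (e1.trans e2.symm) (fun i => ⟨H' i (a i.succ), hlt i⟩))
        (fun i => ⟨H' i (b i.succ), hlt' i⟩)
      have e4 := h3' (fun i => a i.succ) (fun i => b i.succ) (fun i => hab _) (fun i => hb _)
      beta_reduce at e3 e4
      rw [← e4, ← e3]
      congr 1
      · funext i
        refine Fin.cases ?_ (fun i => ?_) i
        · simp
        · simp
      · funext i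
        refine Fin.cases ?_ (fun i => ?_) i
        · simp
        · simp

/-- The point with the coordinates of `a` where `D` holds and those of `b` elsewhere. -/
def mix {r : ℕ} (D : Fin r → Bool) (a b : Fin r → ℕ) : Fin r → ℕ :=
  fun i => if D i = true then a i else b i

/-- A monotone function is, on a large grid, decided by one coordinate. -/
lemma dominated (r t : ℕ) (hr : 0 < r) : ∃ R : ℕ, ∀ h : (Fin r → ℕ) → ℚ, Monotone h →
    ∃ H : Fin r → ℕ → ℕ, (∀ i, StrictMono (H i)) ∧ (∀ i, ∀ a < t, H i a < R) ∧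
      ∃ j₀, ∀ a b : Fin r → ℕ, (∀ i, a i ≠ b i) → (∀ i, a i < t) → (∀ i, b i < t) →
        a j₀ < b j₀ → h (fun i => H i (a i)) ≤ h (fun i => H i (b i)) := by
  classical
  obtain ⟨R, hR⟩ := prod_ramsey r ((Fin r → Bool) → Bool) (t + 5)
  refine ⟨R, fun h hh => ?_⟩
  obtain ⟨H, h1, h2, k, h3⟩ := hR (fun A B D =>
    decide (h (mix D A B) ≤ h (mix (fun i => !D i) A B)))
  have key : ∀ (D : Fin r → Bool) (a b : Fin r → ℕ), (∀ i, a i ≠ b i) → (∀ i, a i < t + 5) →
      (∀ i, b i < t + 5) → (∀ i, D i = true ↔ a i < b i) →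
      (h (fun i => H i (a i)) ≤ h (fun i => H i (b i)) ↔ k D = true) := by
    intro D a b hab ha hb hD
    have e1 := h3 (fun i => min (a i) (b i)) (fun i => max (a i) (b i)) (fun i => by
      have := hab i
      beta_reduce
      omega) (fun i => max_lt (ha i) (hb i))
    have e2 := congrFun e1 D
    beta_reduce at e2
    rw [← e2, decide_eq_true_iff]
    have e3 : mix D (fun i => H i (min (a i) (b i))) (fun i => H i (max (a i) (b i))) =
        fun i => H i (a i) := by
      funext i
      unfold mix
      by_cases hi : a i < b i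
      · rw [if_pos ((hD i).2 hi)]
        beta_reduce
        rw [min_eq_left hi.le]
      · rw [if_neg (fun h => hi ((hD i).1 h))]
        beta_reduce
        rw [max_eq_left (not_lt.1 hi)]
    have e4 : mix (fun i => !D i) (fun i => H i (min (a i) (b i))) (fun i => H i (max (a i) (b i))) =
        fun i => H i (b i) := by
      funext i
      unfold mix
      by_cases hi : a i < b i
      · rw [if_neg (by beta_reduce; rw [(hD i).2 hi]; decide)]
        beta_reduce
        rw [max_eq_right hi.le]
      · rw [if_pos (by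
          have : D i = false := by
            by_contra hc
            exact hi ((hD i).1 (by simpa using hc))
          beta_reduce
          rw [this]; rfl)]
        beta_reduce
        rw [min_eq_right (not_lt.1 hi)]
    rw [e3, e4]
  have hand : ∀ D₁ D₂ : Fin r → Bool, k D₁ = true → k D₂ = true →
      k (fun i => D₁ i && D₂ i) = true := by
    intro D₁ D₂ k1 k2
    let a : Fin r → ℕ := fun i => if (D₁ i && D₂ i) = true then 1 else 3
    let b : Fin r → ℕ := fun i => if (D₁ i && D₂ i) = true then 3 else 1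
    let w : Fin r → ℕ := fun i => if D₁ i = true then (if D₂ i = true then 2 else 4)
      else (if D₂ i = true then 0 else 2)
    have hcase : ∀ i, (a i ≠ b i ∧ a i ≠ w i ∧ w i ≠ b i) ∧ (a i < 5 ∧ b i < 5 ∧ w i < 5) ∧
        (D₁ i = true ↔ a i < w i) ∧ (D₂ i = true ↔ w i < b i) ∧
        ((D₁ i && D₂ i) = true ↔ a i < b i) := by
      intro i
      simp only [a, b, w]
      rcases hd1 : D₁ i with _ | _ <;> rcases hd2 : D₂ i with _ | _ <;> simp
    have ha : ∀ i, a i < t + 5 := fun i => lt_of_lt_of_le (hcase i).2.1.1 (by omega)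
    have hb : ∀ i, b i < t + 5 := fun i => lt_of_lt_of_le (hcase i).2.1.2.1 (by omega)
    have hw : ∀ i, w i < t + 5 := fun i => lt_of_lt_of_le (hcase i).2.1.2.2 (by omega)
    refine (key _ a b (fun i => (hcase i).1.1) ha hb (fun i => (hcase i).2.2.2.2)).1 ?_
    exact ((key _ a w (fun i => (hcase i).1.2.1) ha hw (fun i => (hcase i).2.2.1)).2 k1).trans
      ((key _ w b (fun i => (hcase i).1.2.2) hw hb (fun i => (hcase i).2.2.2.1)).2 k2)
  have hsup : ∀ D D' : Fin r → Bool, (∀ i, D i = true → D' i = true) → k D = true →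
      k D' = true := by
    intro D D' hDD kD
    let a : Fin r → ℕ := fun i => if D' i = true then 1 else 3
    let b : Fin r → ℕ := fun i => if D' i = true then 3 else 1
    let a' : Fin r → ℕ := fun i => if D i = true then 1 else 3
    let b' : Fin r → ℕ := fun i => if D i = true then 3 else 1
    have hcase : ∀ i, (a i ≠ b i ∧ a' i ≠ b' i) ∧ (a i < 5 ∧ b i < 5 ∧ a' i < 5 ∧ b' i < 5) ∧
        (D i = true ↔ a' i < b' i) ∧ (D' i = true ↔ a i < b i) ∧ a i ≤ a' i ∧ b' i ≤ b i := by
      intro i
      have := hDD i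
      simp only [a, b, a', b']
      rcases hd1 : D i with _ | _ <;> rcases hd2 : D' i with _ | _ <;> simp_all
    refine (key _ a b (fun i => (hcase i).1.1) (fun i => lt_of_lt_of_le (hcase i).2.1.1 (by omega))
      (fun i => lt_of_lt_of_le (hcase i).2.1.2.1 (by omega)) (fun i => (hcase i).2.2.2.1)).1 ?_
    have e1 := (key _ a' b' (fun i => (hcase i).1.2)
      (fun i => lt_of_lt_of_le (hcase i).2.1.2.2.1 (by omega))
      (fun i => lt_of_lt_of_le (hcase i).2.1.2.2.2 (by omega)) (fun i => (hcase i).2.2.1)).2 kD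
    have e2 : h (fun i => H i (a i)) ≤ h (fun i => H i (a' i)) :=
      hh (fun i => (h1 i).monotone (hcase i).2.2.2.2.1)
    have e3 : h (fun i => H i (b' i)) ≤ h (fun i => H i (b i)) :=
      hh (fun i => (h1 i).monotone (hcase i).2.2.2.2.2)
    exact e2.trans (e1.trans e3)
  have htot : ∀ D : Fin r → Bool, k D = true ∨ k (fun i => !D i) = true := by
    intro D
    let a : Fin r → ℕ := fun i => if D i = true then 0 else 1
    let b : Fin r → ℕ := fun i => if D i = true then 1 else 0
    have hcase : ∀ i, a i ≠ b i ∧ a i < 5 ∧ b i < 5 ∧ (D i = true ↔ a i < b i) ∧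
        ((!D i) = true ↔ b i < a i) := by
      intro i
      simp only [a, b]
      rcases hd1 : D i with _ | _ <;> simp
    rcases le_total (h (fun i => H i (a i))) (h (fun i => H i (b i))) with hle | hle
    · left
      exact (key _ a b (fun i => (hcase i).1) (fun i => lt_of_lt_of_le (hcase i).2.1 (by omega))
        (fun i => lt_of_lt_of_le (hcase i).2.2.1 (by omega)) (fun i => (hcase i).2.2.2.1)).1 hle
    · right
      exact (key (fun i => !D i) b a (fun i => (hcase i).1.symm)
        (fun i => lt_of_lt_of_le (hcase i).2.2.1 (by omega))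
        (fun i => lt_of_lt_of_le (hcase i).2.1 (by omega)) (fun i => (hcase i).2.2.2.2)).1 hle
  have hex : ∃ j₀ : Fin r, k (fun i => decide (i = j₀)) = true := by
    by_contra hcon
    push Not at hcon
    have hcomp : ∀ j : Fin r, k (fun i => !decide (i = j)) = true := fun j =>
      (htot _).resolve_left (hcon j)
    have hall : ∀ T : Finset (Fin r), k (fun i => decide (i ∉ T)) = true := by
      intro T
      induction T using Finset.induction_on with
      | empty =>
        rcases htot (fun _ => true) with h | h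
        · exact hsup _ _ (fun i _ => by simp) h
        · exact hsup _ _ (fun i _ => by simp) h
      | insert j T _ ih =>
        refine hsup _ _ ?_ (hand _ _ ih (hcomp j))
        intro i hi
        simp only [Bool.and_eq_true, decide_eq_true_eq, Bool.not_eq_true',
          decide_eq_false_iff_not] at hi
        simp only [decide_eq_true_eq, Finset.mem_insert, not_or]
        exact ⟨hi.2, hi.1⟩
    exact hcon ⟨0, hr⟩ (hsup _ _ (fun i hi => by simp at hi) (hall Finset.univ))
  obtain ⟨j₀, hj₀⟩ := hex
  refine ⟨H, h1, fun i a ha => h2 i a (by omega), j₀, ?_⟩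
  intro a b hab ha hb hj
  refine (key (fun i => decide (a i < b i)) a b hab (fun i => (ha i).trans_le (by omega))
    (fun i => (hb i).trans_le (by omega)) (fun i => by simp)).2 ?_
  refine hsup _ _ ?_ hj₀
  intro i hi
  have : i = j₀ := by simpa using hi
  subst this
  simpa using hj

end Pool.Agent.K9h79.CC
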