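import Pool.Agent.K9h79.CC.Pattern

/-! # A monotone function containing all patterns -/

set_option autoImplicit false

namespace Pool.Agent.K9h79.CC

/-- The number `v` placed in `[2 s, 2 s + 1)`. -/
def qv (s v : ℕ) : ℚ := 2 * s + 1 - 1 / (v + 1)

lemma qv_lt (s v : ℕ) : qv s v < 2 * s + 1 := by
  have : (0 : ℚ) < 1 / (v + 1) := by positivity
  unfold qv
  linarith

lemma le_qv (s v : ℕ) : (2 : ℚ) * s ≤ qv s v := by
  have : (1 : ℚ) / (v + 1) ≤ 1 := by
    rw [div_le_one (by positivity)]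
    have : (0 : ℚ) ≤ v := by positivity
    linarith
  unfold qv
  linarith

lemma qv_strictMono (s : ℕ) : StrictMono (qv s) := by
  intro v w h
  unfold qv
  have h1 : (v : ℚ) + 1 < w + 1 := by
    have : (v : ℚ) < w := by exact_mod_cast h
    linarith
  have h2 : (0 : ℚ) < v + 1 := by positivity
  have := one_div_lt_one_div_of_lt h2 h1
  linarith

/-- The coordinate `a` placed in `[s, s + 1)`. -/
def ev (s a : ℕ) : ℚ := s + 1 - 1 / (a + 1)

lemma ev_strictMono (s : ℕ) : StrictMono (ev s) := by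
  intro v w h
  unfold ev
  have h1 : (v : ℚ) + 1 < w + 1 := by
    have : (v : ℚ) < w := by exact_mod_cast h
    linarith
  have h2 : (0 : ℚ) < v + 1 := by positivity
  have := one_div_lt_one_div_of_lt h2 h1
  linarith

lemma floor_ev (s a : ℕ) : ⌊ev s a⌋₊ = s := by
  have h0 : (0 : ℚ) < 1 / (a + 1) := by positivity
  have h1 : (1 : ℚ) / (a + 1) ≤ 1 := by
    rw [div_le_one (by positivity)]
    have : (0 : ℚ) ≤ a := by positivity
    linarith
  have h2 : (0 : ℚ) ≤ s := by positivity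
  unfold ev
  rw [Nat.floor_eq_iff (by linarith)]
  constructor <;> linarith

/-- The index of a rational number in `[s, s + 1)`. -/
def idx (s : ℕ) (x : ℚ) : ℕ := ⌊1 / (s + 1 - x)⌋₊ - 1

lemma idx_ev (s a : ℕ) : idx s (ev s a) = a := by
  unfold idx ev
  have : (1 : ℚ) / (s + 1 - (s + 1 - 1 / (a + 1))) = ((a + 1 : ℕ) : ℚ) := by
    rw [sub_sub_cancel, one_div_one_div]
    push_cast
    rfl
  rw [this, Nat.floor_natCast]
  rfl

lemma idx_mono (s : ℕ) (x y : ℚ) (hxy : x ≤ y) (hy : ⌊y⌋₊ = s) : idx s x ≤ idx s y := by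
  unfold idx
  have h1 : y < s + 1 := by
    have := Nat.lt_floor_add_one y
    rwa [hy] at this
  refine Nat.sub_le_sub_right (Nat.floor_mono ?_) 1
  exact one_div_le_one_div_of_le (by linarith) (by linarith)

variable {n : ℕ}

open Classical in
/-- The monotone function containing all patterns `φ s`. -/
noncomputable def univF (φ : ℕ → (Fin n → ℕ) → ℕ) (x : Fin n → ℚ) : ℚ :=
  if ∀ j, ⌊x j⌋₊ = Finset.univ.sup (fun i => ⌊x i⌋₊) then
    qv (Finset.univ.sup (fun i => ⌊x i⌋₊))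
      (φ (Finset.univ.sup (fun i => ⌊x i⌋₊)) (fun j => idx (Finset.univ.sup (fun i => ⌊x i⌋₊)) (x j)))
  else 2 * (Finset.univ.sup (fun i => ⌊x i⌋₊) : ℕ)

lemma univF_lt (φ : ℕ → (Fin n → ℕ) → ℕ) (x : Fin n → ℚ) :
    univF φ x < 2 * (Finset.univ.sup (fun i => ⌊x i⌋₊) : ℕ) + 1 := by
  unfold univF
  split_ifs
  · exact qv_lt _ _
  · linarith

lemma le_univF (φ : ℕ → (Fin n → ℕ) → ℕ) (x : Fin n → ℚ) :
    (2 * (Finset.univ.sup (fun i => ⌊x i⌋₊) : ℕ) : ℚ) ≤ univF φ x := by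
  unfold univF
  split_ifs
  · exact le_qv _ _
  · linarith

lemma univF_mono (φ : ℕ → (Fin n → ℕ) → ℕ) (hφ : ∀ s, Monotone (φ s)) : Monotone (univF φ) := by
  intro x y hxy
  have hs : Finset.univ.sup (fun i => ⌊x i⌋₊) ≤ Finset.univ.sup (fun i => ⌊y i⌋₊) :=
    Finset.sup_mono_fun fun i _ => Nat.floor_mono (hxy i)
  rcases hs.lt_or_eq with h | h
  · have h1 := univF_lt φ x
    have h2 := le_univF φ y
    have h3 : ((Finset.univ.sup (fun i => ⌊x i⌋₊) : ℕ) : ℚ) + 1 ≤
      (Finset.univ.sup (fun i => ⌊y i⌋₊) : ℕ) := by exact_mod_cast h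
    linarith
  · by_cases hx : ∀ j, ⌊x j⌋₊ = Finset.univ.sup (fun i => ⌊x i⌋₊)
    · have hy : ∀ j, ⌊y j⌋₊ = Finset.univ.sup (fun i => ⌊y i⌋₊) := by
        intro j
        apply le_antisymm
        · exact Finset.le_sup (f := fun i => ⌊y i⌋₊) (Finset.mem_univ j)
        · rw [← h, ← hx j]
          exact Nat.floor_mono (hxy j)
      unfold univF
      rw [if_pos hx, if_pos hy, ← h]
      refine (qv_strictMono _).monotone (hφ _ ?_)
      intro j
      exact idx_mono _ _ _ (hxy j) (by rw [h]; exact hy j)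
    · have h2 := le_univF φ y
      unfold univF at h2 ⊢
      rw [if_neg hx, h]
      exact h2

lemma univF_ev (hn : 0 < n) (φ : ℕ → (Fin n → ℕ) → ℕ) (s : ℕ) (p : Fin n → ℕ) :
    univF φ (fun j => ev s (p j)) = qv s (φ s p) := by
  have hsup : Finset.univ.sup (fun i : Fin n => ⌊ev s (p i)⌋₊) = s := by
    simp only [floor_ev]
    exact Finset.sup_const ⟨⟨0, hn⟩, Finset.mem_univ _⟩ s
  unfold univF
  rw [hsup, if_pos (fun j => floor_ev s (p j))]
  simp only [idx_ev]

/-- The block number `s` is a copy of the pattern number `s`. -/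
lemma copy_ev (hn : 0 < n) (P : ℕ → Pat n) (s : ℕ) :
    Copy (P s) (univF (fun s => (P s).φ)) (fun _ => ev s) :=
  ⟨fun _ => ev_strictMono s, fun p p' _ _ h => by
    rw [univF_ev hn, univF_ev hn]
    exact qv_strictMono s h⟩

end Pool.Agent.K9h79.CC
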